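import Pool.Agent.H97.SHL.Targets

/-!
Short lines at the scale of SETH (MP_c62aed_lc): the line which is false everywhere.
-/

set_option autoImplicit false

namespace Pool.Agent.H97.SHL

open Finset

theorem pf_ROO (hSUM : T_SUM) (hBLM : T_BLM) : T_ROO := by
  intro X K _ _ D U Y N T₀ 𝓛 Lf dc nar gd Fam hE
  have hmem : (univ : Finset X) ∈ bl 𝓛 T₀ {univ} :=
    (hBLM X 𝓛 {univ} {univ} T₀ T₀ (Finset.Subset.refl _) le_rfl).2.1 (mem_singleton_self _)
  have hF : Fam univ := hE.f1 univ hmem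
  have h1 := (hSUM X K D U Y N T₀ 𝓛 Lf dc nar gd Fam hE univ hF).1
  have h2 := hE.full
  rw [Finset.card_univ] at h1
  nlinarith [h1, h2]

end Pool.Agent.H97.SHL
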